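import Pool.Agent.Helper42.LS.Defs

open Filter Topology

namespace Pool.Agent.Helper42.LS

theorem r0_key (A B x : ℝ) :
    (3 * x ^ 2 + 4 * A) * th A B x - (3 * x ^ 3 - 5 * A * x - 27 * B) * cu A B x = dsc A B := by
  unfold th cu dsc; ring

/-- core inequality -/
theorem r0_core (a : ℝ) (ha : 1 ≤ a) : ∃ K : ℝ, 1 ≤ K ∧ ∀ A B X R : ℝ, 0 < R →
    |A| ≤ a * R ^ 2 → |B| ≤ a ^ 2 * R ^ 3 → |dsc A B| = R ^ 6 →
    (max |X| R) ^ 4 ≤ K * max |th A B X| (R * |4 * cu A B X|) := by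
  set c : ℝ := 4 * a with hc
  set M : ℝ := (3 * c ^ 2 + 4 * a) + (3 * c ^ 3 + 5 * a * c + 27 * a ^ 2) with hM
  have hc0 : 0 < c := by positivity
  have hM0 : 0 < M := by positivity
  refine ⟨2 + c ^ 4 * M, by nlinarith [mul_pos (pow_pos hc0 4) hM0], ?_⟩
  intro A B X R hR hA hB hD
  set m := max |th A B X| (R * |4 * cu A B X|) with hm
  have hm1 : |th A B X| ≤ m := le_max_left _ _
  have hm2 : R * |4 * cu A B X| ≤ m := le_max_right _ _
  have hm0 : 0 ≤ m := (abs_nonneg _).trans hm1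
  have hcM : 0 ≤ c ^ 4 * M := by positivity
  by_cases hX : c * R ≤ |X|
  · have hXR : R ≤ |X| := le_trans (by nlinarith) hX
    rw [max_eq_left hXR]
    have hX0 : 0 < |X| := lt_of_lt_of_le hR hXR
    -- th ≥ X^4 / 2
    have h1 : |2 * A * X ^ 2| ≤ (1 / 8) * |X| ^ 4 := by
      rw [abs_mul, abs_mul, abs_pow, abs_of_pos (by norm_num : (0 : ℝ) < 2)]
      have h2 : |A| ≤ (1 / 16) * |X| ^ 2 := by
        have h3 : (c * R) ^ 2 ≤ |X| ^ 2 := pow_le_pow_left₀ (by positivity) hX 2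
        have h4 : 16 * (a * R ^ 2) ≤ (c * R) ^ 2 := by
          rw [hc]; nlinarith [mul_nonneg (by linarith : (0:ℝ) ≤ a - 1) (by positivity : 0 ≤ a * R ^ 2)]
        linarith
      nlinarith [mul_le_mul_of_nonneg_right h2 (by positivity : 0 ≤ |X| ^ 2)]
    have h2 : |8 * B * X| ≤ (1 / 8) * |X| ^ 4 := by
      rw [abs_mul, abs_mul, abs_of_pos (by norm_num : (0 : ℝ) < 8)]
      have h2 : |B| ≤ (1 / 64) * |X| ^ 3 := by
        have h3 : (c * R) ^ 3 ≤ |X| ^ 3 := pow_le_pow_left₀ (by positivity) hX 3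
        have h4 : 64 * (a ^ 2 * R ^ 3) ≤ (c * R) ^ 3 := by
          rw [hc]
          nlinarith [mul_nonneg (by linarith : (0:ℝ) ≤ a - 1) (by positivity : 0 ≤ a ^ 2 * R ^ 3)]
        linarith
      nlinarith [mul_le_mul_of_nonneg_right h2 (by positivity : 0 ≤ |X|)]
    have h3 : |X| ^ 4 = X ^ 4 := by
      rw [← abs_pow, abs_of_nonneg (by positivity)]
    have h4 : X ^ 4 ≤ 2 * |th A B X| := by
      have h5 : th A B X = X ^ 4 - 2 * A * X ^ 2 - 8 * B * X + A ^ 2 := rfl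
      have h6 := le_abs_self (2 * A * X ^ 2)
      have h7 := le_abs_self (8 * B * X)
      have h8 := le_abs_self (th A B X)
      rw [h3] at h1 h2
      nlinarith [sq_nonneg A, sq_nonneg (X ^ 2)]
    rw [h3]
    calc X ^ 4 ≤ 2 * |th A B X| := h4
      _ ≤ 2 * m := by linarith
      _ ≤ (2 + c ^ 4 * M) * m := by nlinarith [mul_nonneg hcM hm0]
  · have hX' : |X| ≤ c * R := (not_le.mp hX).le
    have hmax : max |X| R ≤ c * R := max_le hX' (by nlinarith)
    have h1 : (max |X| R) ^ 4 ≤ c ^ 4 * R ^ 4 := by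
      rw [← mul_pow]
      exact pow_le_pow_left₀ (le_trans hR.le (le_max_right _ _)) hmax 4
    have hkey := r0_key A B X
    have h2 : R ^ 6 ≤ (3 * c ^ 2 + 4 * a) * R ^ 2 * |th A B X| +
        (3 * c ^ 3 + 5 * a * c + 27 * a ^ 2) * R ^ 3 * |cu A B X| := by
      rw [← hD, ← hkey]
      refine (abs_sub _ _).trans ?_
      rw [abs_mul, abs_mul]
      have h3 : |3 * X ^ 2 + 4 * A| ≤ (3 * c ^ 2 + 4 * a) * R ^ 2 := by
        refine (abs_add_le _ _).trans ?_
        rw [abs_mul, abs_mul, abs_pow, abs_of_pos (by norm_num : (0 : ℝ) < 3),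
          abs_of_pos (by norm_num : (0 : ℝ) < 4)]
        have h4 : |X| ^ 2 ≤ (c * R) ^ 2 := pow_le_pow_left₀ (abs_nonneg _) hX' 2
        nlinarith
      have h4 : |3 * X ^ 3 - 5 * A * X - 27 * B| ≤
          (3 * c ^ 3 + 5 * a * c + 27 * a ^ 2) * R ^ 3 := by
        refine (abs_sub _ _).trans ?_
        have h5 := abs_sub (3 * X ^ 3) (5 * A * X)
        rw [abs_mul, abs_mul, abs_mul, abs_pow, abs_of_pos (by norm_num : (0 : ℝ) < 3),
          abs_of_pos (by norm_num : (0 : ℝ) < 5)] at h5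
        rw [abs_mul 27, abs_of_pos (by norm_num : (0 : ℝ) < 27)]
        have h6 : |X| ^ 3 ≤ (c * R) ^ 3 := pow_le_pow_left₀ (abs_nonneg _) hX' 3
        have h7 : |A| * |X| ≤ (a * R ^ 2) * (c * R) :=
          mul_le_mul hA hX' (abs_nonneg _) (by positivity)
        nlinarith
      exact add_le_add (mul_le_mul_of_nonneg_right h3 (abs_nonneg _))
        (mul_le_mul_of_nonneg_right h4 (abs_nonneg _))
    have h3 : |4 * cu A B X| = 4 * |cu A B X| := by
      rw [abs_mul, abs_of_pos (by norm_num : (0 : ℝ) < 4)]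
    rw [h3] at hm2
    have h4 : R ^ 6 ≤ R ^ 2 * (M * m) := by
      have h5 : R * |cu A B X| ≤ m := by nlinarith [mul_nonneg hR.le (abs_nonneg (cu A B X))]
      have h6 : (3 * c ^ 2 + 4 * a) * R ^ 2 * |th A B X| ≤ (3 * c ^ 2 + 4 * a) * R ^ 2 * m :=
        mul_le_mul_of_nonneg_left hm1 (by positivity)
      have h7 : (3 * c ^ 3 + 5 * a * c + 27 * a ^ 2) * R ^ 3 * |cu A B X| ≤
          (3 * c ^ 3 + 5 * a * c + 27 * a ^ 2) * R ^ 2 * m := by
        have := mul_le_mul_of_nonneg_left h5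
          (by positivity : 0 ≤ (3 * c ^ 3 + 5 * a * c + 27 * a ^ 2) * R ^ 2)
        calc _ = (3 * c ^ 3 + 5 * a * c + 27 * a ^ 2) * R ^ 2 * (R * |cu A B X|) := by ring
          _ ≤ _ := this
      calc R ^ 6 ≤ _ := h2
        _ ≤ (3 * c ^ 2 + 4 * a) * R ^ 2 * m + (3 * c ^ 3 + 5 * a * c + 27 * a ^ 2) * R ^ 2 * m :=
          add_le_add h6 h7
        _ = R ^ 2 * (M * m) := by rw [hM]; ring
    have h5 : R ^ 4 ≤ M * m := by
      have h6 : R ^ 2 * R ^ 4 ≤ R ^ 2 * (M * m) := by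
        calc R ^ 2 * R ^ 4 = R ^ 6 := by ring
          _ ≤ _ := h4
      exact le_of_mul_le_mul_left h6 (by positivity)
    calc (max |X| R) ^ 4 ≤ c ^ 4 * R ^ 4 := h1
      _ ≤ c ^ 4 * (M * m) := mul_le_mul_of_nonneg_left h5 (by positivity)
      _ ≤ (2 + c ^ 4 * M) * m := by nlinarith

/-- duplication with the tangent formula -/
theorem r0_dbl {A B : ℝ} {X Y : ℕ → ℝ} (h : GSeq (0 : ℝ) A B X Y) (k : ℕ) (hk : 1 ≤ k) :
    Y k ^ 2 = cu A B (X k) ∧ X (2 * k) * (4 * Y k ^ 2) = th A B (X k) := by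
  have h1 := h.curve k hk
  have h2 := h.yne k hk
  have h3 := h.dblx k hk
  have h4 : Y k ^ 2 = cu A B (X k) := by rw [h1]; unfold cu; ring
  refine ⟨h4, ?_⟩
  rw [h3]
  have h5 : (((3 * X k ^ 2 + 2 * 0 * X k + A) / (2 * Y k)) ^ 2 - 0 - 2 * X k) * (4 * Y k ^ 2) =
      (3 * X k ^ 2 + A) ^ 2 - 8 * X k * Y k ^ 2 := by
    field_simp
    ring
  rw [h5, h4]
  unfold th cu
  ring

theorem st_R0 : ST_R0 := by
  intro J₀
  set a : ℝ := max 1 J₀ with ha
  have ha1 : 1 ≤ a := le_max_left _ _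
  have haJ : J₀ ≤ a := le_max_right _ _
  obtain ⟨K, hK1, hK⟩ := r0_core a ha1
  refine ⟨Real.log K, ?_⟩
  intro A B hD hA X Y hG
  have hDpos : 0 < |dsc A B| := abs_pos.mpr hD
  set R : ℝ := |dsc A B| ^ (1 / 6 : ℝ) with hR
  have hRpos : 0 < R := Real.rpow_pos_of_pos hDpos _
  have hR6 : |dsc A B| = R ^ 6 := by
    rw [hR, ← Real.rpow_natCast, ← Real.rpow_mul hDpos.le]
    norm_num
  have hA3 : |A| ^ 3 ≤ (a * R ^ 2) ^ 3 := by
    rw [abs_mul, abs_pow, abs_of_pos (by norm_num : (0 : ℝ) < 6912), hR6] at hA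
    have h1 : J₀ * R ^ 6 ≤ a * R ^ 6 := mul_le_mul_of_nonneg_right haJ (by positivity)
    have h2 : a * R ^ 6 ≤ a ^ 3 * R ^ 6 := by
      refine mul_le_mul_of_nonneg_right ?_ (by positivity)
      nlinarith [mul_nonneg (by linarith : (0:ℝ) ≤ a - 1) (by linarith : (0:ℝ) ≤ a),
        mul_nonneg (mul_nonneg (by linarith : (0:ℝ) ≤ a - 1) (by linarith : (0:ℝ) ≤ a))
          (by linarith : (0:ℝ) ≤ a)]
    have h3 : (a * R ^ 2) ^ 3 = a ^ 3 * R ^ 6 := by ring
    rw [h3]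
    have h4 : 0 ≤ |A| ^ 3 := by positivity
    nlinarith
  have hAa : |A| ≤ a * R ^ 2 := le_of_pow_le_pow_left₀ (by norm_num) (by positivity) hA3
  have hBb : |B| ≤ a ^ 2 * R ^ 3 := by
    have h1 : 27 * B ^ 2 ≤ R ^ 6 + 4 * |A| ^ 3 := by
      have h2 : 27 * B ^ 2 = dsc A B - 4 * A ^ 3 := by unfold dsc; ring
      rw [h2]
      have h3 := le_abs_self (dsc A B)
      have h4 : -(A ^ 3) ≤ |A| ^ 3 := by
        rw [← abs_pow]; exact neg_le_abs _
      rw [hR6] at h3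
      linarith
    have h3 : (a * R ^ 2) ^ 3 = a ^ 3 * R ^ 6 := by ring
    rw [h3] at hA3
    have h5 : a ^ 3 ≤ a ^ 4 := pow_le_pow_right₀ ha1 (by norm_num)
    have h6 : 1 ≤ a ^ 4 := one_le_pow₀ ha1
    have h7 : B ^ 2 ≤ (a ^ 2 * R ^ 3) ^ 2 := by
      have h8 : (a ^ 2 * R ^ 3) ^ 2 = a ^ 4 * R ^ 6 := by ring
      rw [h8]
      have hR6' : 0 < R ^ 6 := by positivity
      nlinarith [mul_le_mul_of_nonneg_right h5 hR6'.le, mul_le_mul_of_nonneg_right h6 hR6'.le]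
    exact abs_le_of_sq_le_sq h7 (by positivity)
  refine ⟨fun k => Real.log (max |X k| R), ?_, ?_, ?_⟩
  · intro k hk
    obtain ⟨h1, h2⟩ := r0_dbl hG k hk
    have hY : 0 < Y k ^ 2 := by have := hG.yne k hk; positivity
    have h3 := hK A B (X k) R hRpos hAa hBb hR6
    have hm : max |th A B (X k)| (R * |4 * cu A B (X k)|) =
        max |X (2 * k)| R * (4 * Y k ^ 2) := by
      rw [← h1, ← h2, abs_mul, abs_of_pos (by positivity : 0 < 4 * Y k ^ 2),
        max_mul_of_nonneg _ _ (by positivity)]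
    rw [hm] at h3
    have hmp : 0 < max |X k| R := lt_of_lt_of_le hRpos (le_max_right _ _)
    have hmp2 : 0 < max |X (2 * k)| R := lt_of_lt_of_le hRpos (le_max_right _ _)
    have h4 := Real.log_le_log (by positivity) h3
    rw [Real.log_pow, Real.log_mul (by positivity) (by positivity),
      Real.log_mul (by positivity) (by positivity)] at h4
    push_cast at h4
    show 4 * Real.log (max |X k| R) - Real.log K ≤ Real.log (max |X (2 * k)| R) + _
    linarith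
  · refine ⟨Real.log (max R 1), fun k hk => ?_⟩
    have h1 : 0 < max |X k| 1 := lt_of_lt_of_le one_pos (le_max_right _ _)
    have h2 : 0 < max R 1 := lt_of_lt_of_le one_pos (le_max_right _ _)
    rw [← Real.log_mul h1.ne' h2.ne']
    refine Real.log_le_log (lt_of_lt_of_le hRpos (le_max_right _ _)) (max_le ?_ ?_)
    · calc |X k| ≤ max |X k| 1 := le_max_left _ _
        _ = max |X k| 1 * 1 := (mul_one _).symm
        _ ≤ _ := mul_le_mul_of_nonneg_left (le_max_right _ _) h1.le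
    · calc R ≤ max R 1 := le_max_left _ _
        _ = 1 * max R 1 := (one_mul _).symm
        _ ≤ _ := mul_le_mul_of_nonneg_right (le_max_right _ _) h2.le
  · intro k hk
    have h1 : Real.log R = 1 / 6 * Real.log |dsc A B| := by
      rw [hR, Real.log_rpow hDpos]
    have h2 : 0 ≤ Real.log K := Real.log_nonneg hK1
    have h3 : Real.log R ≤ Real.log (max |X k| R) := Real.log_le_log hRpos (le_max_right _ _)
    rw [← h1]
    show _ ≤ Real.log (max |X k| R)
    linarith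

end Pool.Agent.Helper42.LS
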