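import Pool.Agent.Helper42.LS.Defs

open Filter Topology

namespace Pool.Agent.Helper42.LS

/-- duplication on `Y ^ 2 = Z ^ 3 + a Z ^ 2 + Z` -/
theorem rn_dbl {a : ℝ} {Z Y : ℕ → ℝ} (h : GSeq a 1 0 Z Y) (k : ℕ) (hk : 1 ≤ k) :
    Z (2 * k) * (4 * Y k ^ 2) = (Z k ^ 2 - 1) ^ 2 := by
  have h1 := h.curve k hk
  have h2 := h.yne k hk
  have h3 := h.dblx k hk
  rw [h3]
  have h5 : (((3 * Z k ^ 2 + 2 * a * Z k + 1) / (2 * Y k)) ^ 2 - a - 2 * Z k) * (4 * Y k ^ 2) =
      (3 * Z k ^ 2 + 2 * a * Z k + 1) ^ 2 - 4 * (a + 2 * Z k) * Y k ^ 2 := by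
    field_simp
    ring
  rw [h5, h1]
  ring

theorem st_RN : ST_RN := by
  refine ⟨Real.log 2, ?_⟩
  intro κ hκ Z Y hG hZ
  refine ⟨fun k => Real.log (max (Z k) 1), ?_, fun k hk => le_rfl, ?_⟩
  · intro k hk
    have h1 := rn_dbl hG k hk
    have h2 := hG.curve k hk
    have hZk := hZ k hk
    have hY : 0 < Y k ^ 2 := by have := hG.yne k hk; positivity
    have hm : max (Z (2 * k)) 1 * (4 * Y k ^ 2) = max ((Z k ^ 2 - 1) ^ 2) (4 * Y k ^ 2) := by
      rw [max_mul_of_nonneg _ _ (by positivity), h1, one_mul]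
    have hκ' := (abs_le.mp hκ).1
    have h3 : max (Z k) 1 ^ 4 ≤ 2 * (max (Z (2 * k)) 1 * (4 * Y k ^ 2)) := by
      rw [hm]
      have h4 := le_max_left ((Z k ^ 2 - 1) ^ 2) (4 * Y k ^ 2)
      have h5 := le_max_right ((Z k ^ 2 - 1) ^ 2) (4 * Y k ^ 2)
      have h6 : max (Z k) 1 ^ 4 ≤ (Z k ^ 2 - 1) ^ 2 + 4 * Y k ^ 2 := by
        rw [h2]
        have h7 : 0 < Z k ^ 2 := by positivity
        have h8 : 0 < Z k ^ 3 := by positivity
        have h9 : 0 ≤ (2 + κ - 1) * Z k ^ 2 := mul_nonneg (by linarith) h7.le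
        rcases le_total (Z k) 1 with h | h
        · rw [max_eq_right h]; nlinarith [sq_nonneg (Z k ^ 2)]
        · rw [max_eq_left h]; nlinarith
      linarith
    have hp1 : 0 < max (Z k) 1 := lt_of_lt_of_le one_pos (le_max_right _ _)
    have hp2 : 0 < max (Z (2 * k)) 1 := lt_of_lt_of_le one_pos (le_max_right _ _)
    have h4 := Real.log_le_log (by positivity) h3
    rw [Real.log_pow, Real.log_mul (by norm_num) (by positivity),
      Real.log_mul (by positivity) (by positivity)] at h4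
    push_cast at h4
    show 4 * Real.log (max (Z k) 1) - Real.log 2 ≤ Real.log (max (Z (2 * k)) 1) + _
    linarith
  · intro k hk
    have h1 : 0 ≤ Real.log (max (Z k) 1) := Real.log_nonneg (le_max_right _ _)
    have h2 : 0 < Real.log 2 := Real.log_pos (by norm_num)
    show -Real.log 2 ≤ Real.log (max (Z k) 1)
    linarith

end Pool.Agent.Helper42.LS
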