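import Pool.Agent.Helper42.LS.Defs

open Filter Topology

namespace Pool.Agent.Helper42.LS

/-- a root with sign opposite to `B` -/
theorem rr_root (A B : ℝ) (hB : B ≠ 0) : ∃ e : ℝ, e ^ 3 + A * e + B = 0 ∧ e * B < 0 := by
  have hc : Continuous fun x : ℝ => x ^ 3 + A * x + B := by fun_prop
  have pos : ∀ A B : ℝ, 0 < B → ∃ e : ℝ, e ^ 3 + A * e + B = 0 ∧ e < 0 := by
    intro A B hB
    have hc : Continuous fun x : ℝ => x ^ 3 + A * x + B := by fun_prop
    set T : ℝ := -(1 + |A| + B) with hT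
    have hA := abs_nonneg A
    have hA2 := neg_abs_le A
    have h1 : T ^ 3 + A * T + B < 0 := by
      have h2 : T ^ 3 + A * T + B = -((1 + |A| + B) ^ 3) - A * (1 + |A| + B) + B := by
        rw [hT]; ring
      rw [h2]
      have h3 : 1 ≤ 1 + |A| + B := by linarith
      have h4 : (1 + |A| + B) ≤ (1 + |A| + B) ^ 2 := by nlinarith
      have h5 : -A * (1 + |A| + B) ≤ |A| * (1 + |A| + B) :=
        mul_le_mul_of_nonneg_right (by linarith) (by linarith)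
      nlinarith [mul_nonneg hA hB.le, mul_nonneg hA hA, mul_pos hB hB]
    have h2 : (0 : ℝ) < (fun x : ℝ => x ^ 3 + A * x + B) 0 := by simpa using hB
    obtain ⟨e, he, he0⟩ := intermediate_value_Ioo (show T ≤ 0 by rw [hT]; linarith)
      hc.continuousOn (show (0 : ℝ) ∈ Set.Ioo _ _ from ⟨h1, h2⟩)
    exact ⟨e, he0, he.2⟩
  rcases lt_or_gt_of_ne hB with h | h
  · obtain ⟨e, he1, he2⟩ := pos A (-B) (by linarith)
    exact ⟨-e, by linarith [show (-e) ^ 3 = -(e ^ 3) by ring], by nlinarith⟩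
  · obtain ⟨e, he1, he2⟩ := pos A B h
    exact ⟨e, he1, by nlinarith⟩

theorem st_RR : ST_RR := by
  refine ⟨345600, by norm_num, ?_⟩
  intro A B hD hJ
  have hDpos : 0 < |dsc A B| := abs_pos.mpr hD
  have hB : B ≠ 0 := by
    intro h
    have h1 : 6912 * A ^ 3 = 1728 * dsc A B := by unfold dsc; rw [h]; ring
    rw [h1, abs_mul, abs_of_pos (by norm_num : (0 : ℝ) < 1728)] at hJ
    linarith
  obtain ⟨e, he, heB⟩ := rr_root A B hB
  have he0 : e ≠ 0 := by intro h; rw [h] at heB; simp at heB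
  have hBe : B = -(e * (e ^ 2 + A)) := by linarith [show e * (e ^ 2 + A) = e ^ 3 + A * e by ring]
  have he2 : 0 < e ^ 2 := by positivity
  have hpos : 0 < e ^ 2 + A := by
    by_contra h
    have h1 : e * B = -(e ^ 2 * (e ^ 2 + A)) := by rw [hBe]; ring
    rw [h1] at heB
    nlinarith [mul_nonneg he2.le (by linarith : 0 ≤ -(e ^ 2 + A))]
  have hmu2 : 0 < 3 * e ^ 2 + A := by linarith
  set μ : ℝ := √(3 * e ^ 2 + A) with hμ
  have hμpos : 0 < μ := Real.sqrt_pos.mpr hmu2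
  have hμsq : μ ^ 2 = 3 * e ^ 2 + A := Real.sq_sqrt hmu2.le
  set κ : ℝ := 3 * |e| / μ - 2 with hκ
  have habs : 3 * |e| = (2 + κ) * μ := by rw [hκ]; field_simp; ring
  have hesq : |e| ^ 2 = e ^ 2 := sq_abs e
  have hκ2 : -2 < κ := by
    rw [hκ]
    have : 0 < 3 * |e| / μ := by positivity
    linarith
  have hκup : (2 + κ) ^ 2 < 9 / 2 := by
    have h1 : 9 * e ^ 2 = (2 + κ) ^ 2 * μ ^ 2 := by
      rw [← hesq]
      calc 9 * |e| ^ 2 = (3 * |e|) ^ 2 := by ring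
        _ = _ := by rw [habs]; ring
    have h2 : 2 * e ^ 2 < μ ^ 2 := by rw [hμsq]; linarith
    have h3 : 0 < μ ^ 2 := by positivity
    by_contra h4
    have h5 := mul_le_mul_of_nonneg_right (not_lt.mp h4) h3.le
    linarith
  have hκup' : κ < 13 / 100 := by
    by_contra h
    have h1 : 213 / 100 ≤ 2 + κ := by linarith [not_lt.mp h]
    nlinarith
  have h9 : 9 * e ^ 2 = (2 + κ) ^ 2 * μ ^ 2 := by
    rw [← hesq]
    calc 9 * |e| ^ 2 = (3 * |e|) ^ 2 := by ring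
      _ = _ := by rw [habs]; ring
  have hAμ : A = -(μ ^ 2 * (1 + 4 * κ + κ ^ 2)) / 3 := by
    have h1 : A = μ ^ 2 - 3 * e ^ 2 := by rw [hμsq]; ring
    rw [h1]
    linear_combination (-1/3) * h9
  have hDμ : dsc A B = -(κ * (4 + κ)) * μ ^ 6 := by
    have h1 : dsc A B = (3 * e ^ 2 + 4 * A) * (3 * e ^ 2 + A) ^ 2 := by
      unfold dsc; rw [hBe]; ring
    rw [h1, ← hμsq]
    have h2 : 3 * e ^ 2 + 4 * A = -(κ * (4 + κ)) * μ ^ 2 := by
      have h3 : 3 * e ^ 2 + 4 * A = 4 * μ ^ 2 - 9 * e ^ 2 := by rw [hμsq]; ring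
      rw [h3, h9]; ring
    rw [h2]; ring
  have hκ0 : κ ≠ 0 := by
    intro h
    apply hD
    rw [hDμ, h]; ring
  have hsmall : |κ| ≤ 1 / 100 := by
    have h1 : |6912 * A ^ 3| = 256 * μ ^ 6 * |1 + 4 * κ + κ ^ 2| ^ 3 := by
      have h2 : 6912 * A ^ 3 = -(256 * μ ^ 6 * (1 + 4 * κ + κ ^ 2) ^ 3) := by
        rw [hAμ]; ring
      rw [h2, abs_neg, abs_mul, abs_of_pos (by positivity : 0 < 256 * μ ^ 6), abs_pow]
    have h2 : |dsc A B| = |κ| * (4 + κ) * μ ^ 6 := by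
      rw [hDμ, abs_mul, abs_neg, abs_mul, abs_of_pos (by linarith : 0 < 4 + κ),
        abs_of_pos (by positivity : 0 < μ ^ 6)]
    have h3 : |1 + 4 * κ + κ ^ 2| ≤ 3 := by
      rw [abs_le]
      constructor
      · nlinarith
      · nlinarith
    have h4 : |1 + 4 * κ + κ ^ 2| ^ 3 ≤ 27 := by
      calc |1 + 4 * κ + κ ^ 2| ^ 3 ≤ 3 ^ 3 := pow_le_pow_left₀ (abs_nonneg _) h3 3
        _ = 27 := by norm_num
    rw [h1, h2] at hJ
    have hμ6 : 0 < μ ^ 6 := by positivity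
    have h5 : 345600 * (|κ| * (4 + κ)) < 6912 := by
      have h6 : 256 * μ ^ 6 * |1 + 4 * κ + κ ^ 2| ^ 3 ≤ 6912 * μ ^ 6 := by
        nlinarith [mul_le_mul_of_nonneg_left h4 (by positivity : 0 ≤ 256 * μ ^ 6)]
      have h7 : 345600 * (|κ| * (4 + κ)) * μ ^ 6 < 6912 * μ ^ 6 := by
        calc _ = 345600 * (|κ| * (4 + κ) * μ ^ 6) := by ring
          _ < _ := hJ
          _ ≤ _ := h6
      exact lt_of_mul_lt_mul_right h7 hμ6.le
    have h6 : |κ| * 2 ≤ |κ| * (4 + κ) := mul_le_mul_of_nonneg_left (by linarith) (abs_nonneg _)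
    linarith
  refine ⟨e, μ, κ, hμpos, he, hμsq, hsmall, hκ0, habs, hDμ, ?_⟩
  intro hen X hX
  by_contra hcon
  have h1 : X ≤ e := not_lt.mp hcon
  have h2 : X ^ 3 + A * X + B = (X - e) * (X ^ 2 + e * X + e ^ 2 + A) := by
    rw [hBe]; ring
  have h3 : 0 < X ^ 2 + e * X + e ^ 2 + A := by
    have h4 : 0 ≤ e * X := mul_nonneg_of_nonpos_of_nonpos hen.le (by linarith)
    nlinarith [sq_nonneg X]
  rw [h2] at hX
  nlinarith [mul_nonneg (by linarith : 0 ≤ e - X) h3.le]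

end Pool.Agent.Helper42.LS
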