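import Pool.Agent.Helper54.LS.KerDefs
import Pool.Agent.Helper81.LS.FB

/-!
# K4: one real angle
-/

namespace Pool.Agent.Helper54.LS

open Real Filter Topology Pool.Agent.Helper42.LS

theorem k4_wt_nonneg (b : ℝ) (j : ℕ) : 0 ≤ wt b j := by
  unfold wt
  have h := Real.cos_le_one (2 * π * (b * j))
  have h1 : 0 ≤ 1 - Real.cos (2 * π * (b * j)) := by linarith
  positivity

theorem k4_nd_exists (θ : ℝ) : ∃ n : ℤ, |θ - n| = nd θ := by
  unfold nd
  have h0 := Int.fract_nonneg θ
  have h1 := Int.fract_lt_one θ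
  have hf : Int.fract θ = θ - ⌊θ⌋ := rfl
  rcases le_total (Int.fract θ) (1 - Int.fract θ) with h | h
  · refine ⟨⌊θ⌋, ?_⟩
    rw [min_eq_left h, ← hf, abs_of_nonneg h0]
  · refine ⟨⌊θ⌋ + 1, ?_⟩
    rw [min_eq_right h]
    push_cast
    rw [hf] at h1 ⊢
    rw [abs_of_nonpos (by linarith)]
    ring

theorem k4_nd_le (θ : ℝ) (n : ℤ) : nd θ ≤ |θ - n| := by
  unfold nd
  have hf : Int.fract θ = θ - ⌊θ⌋ := rfl
  rcases le_or_gt n ⌊θ⌋ with h | h
  · refine (min_le_left _ _).trans ?_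
    have h1 : (n : ℝ) ≤ ⌊θ⌋ := by exact_mod_cast h
    rw [hf]
    exact le_trans (by linarith) (le_abs_self _)
  · refine (min_le_right _ _).trans ?_
    have h1 : ((⌊θ⌋ + 1 : ℤ) : ℝ) ≤ n := by exact_mod_cast h
    push_cast at h1
    rw [hf]
    exact le_trans (by linarith) (neg_le_abs _)

theorem k4_nd_nonneg (θ : ℝ) : 0 ≤ nd θ := by
  obtain ⟨n, hn⟩ := k4_nd_exists θ
  rw [← hn]
  exact abs_nonneg _

theorem k4_one_summable : Summable (fun m : ℕ => 1 / ((m : ℝ) + 1) ^ 2) := by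
  have h := (summable_nat_add_iff 1).2 (Real.summable_one_div_nat_pow.2 (one_lt_two))
  refine h.congr (fun m => ?_)
  push_cast
  rfl

/-- exchange of the sums -/
theorem k4_sum {b : ℝ} (hs : Summable (wt b)) (α : ℝ) :
    ∑' j : ℕ, wt b j * B2 (j * α) =
      (1 / π ^ 2) * ∑' m : ℕ, TT b (((m : ℝ) + 1) * α) / ((m : ℝ) + 1) ^ 2 := by
  have hπ : π ^ 2 ≠ 0 := by positivity
  have hB : ∀ x : ℝ, B2 x = (1 / π ^ 2) * ∑' m : ℕ, Real.cos (2 * π * (m + 1) * x) / ((m : ℝ) + 1) ^ 2 := by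
    intro x
    rw [(st_FB x).tsum_eq]
    field_simp
  set f : ℕ → ℕ → ℝ := fun j m =>
    wt b j * (Real.cos (2 * π * (m + 1) * (j * α)) / ((m : ℝ) + 1) ^ 2) with hf
  have hfs : Summable (Function.uncurry f) := by
    have h1 : Summable (fun p : ℕ × ℕ => wt b p.1 * (1 / ((p.2 : ℝ) + 1) ^ 2)) :=
      Summable.mul_of_nonneg hs k4_one_summable (fun j => k4_wt_nonneg b j)
        (fun m => by positivity)
    refine Summable.of_norm_bounded h1 (fun p => ?_)
    show ‖wt b p.1 * (Real.cos (2 * π * (p.2 + 1) * (p.1 * α)) / ((p.2 : ℝ) + 1) ^ 2)‖ ≤ _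
    rw [norm_mul, Real.norm_of_nonneg (k4_wt_nonneg b p.1), norm_div,
      Real.norm_of_nonneg (by positivity : (0 : ℝ) ≤ ((p.2 : ℝ) + 1) ^ 2)]
    refine mul_le_mul_of_nonneg_left ?_ (k4_wt_nonneg b p.1)
    refine div_le_div_of_nonneg_right ?_ (by positivity)
    exact Real.abs_cos_le_one _
  have h1 : ∀ j : ℕ, wt b j * B2 (j * α) = (1 / π ^ 2) * ∑' m : ℕ, f j m := by
    intro j
    rw [hB]
    simp only [hf]
    rw [tsum_mul_left]
    ring
  simp only [h1]
  rw [tsum_mul_left, ← hfs.tsum_comm]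
  congr 1
  refine tsum_congr (fun m => ?_)
  unfold TT
  rw [← tsum_div_const]
  refine tsum_congr (fun j => ?_)
  simp only [hf]
  rw [mul_div_assoc]
  congr 3
  ring

theorem k4_cos_summable {b : ℝ} (hs : Summable (wt b)) (θ : ℝ) :
    Summable (fun j : ℕ => wt b j * Real.cos (2 * π * (j * θ))) := by
  refine Summable.of_norm_bounded hs (fun j => ?_)
  rw [norm_mul, Real.norm_of_nonneg (k4_wt_nonneg b j)]
  exact mul_le_of_le_one_right (k4_wt_nonneg b j) (Real.abs_cos_le_one _)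

theorem k4_WW_nonneg (b : ℝ) : 0 ≤ WW b := tsum_nonneg (fun j => k4_wt_nonneg b j)

theorem k4_TT_ge {b : ℝ} (hs : Summable (wt b)) (θ : ℝ) : -WW b ≤ TT b θ := by
  unfold WW TT
  rw [← tsum_neg]
  refine Summable.tsum_le_tsum (fun j => ?_) hs.neg (k4_cos_summable hs θ)
  have h := Real.neg_one_le_cos (2 * π * (j * θ))
  have h1 := mul_le_mul_of_nonneg_left h (k4_wt_nonneg b j)
  linarith

theorem k4_TT_le {b : ℝ} (hs : Summable (wt b)) (θ : ℝ) : TT b θ ≤ WW b := by
  unfold WW TT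
  refine Summable.tsum_le_tsum (fun j => ?_) (k4_cos_summable hs θ) hs
  have h := Real.cos_le_one (2 * π * (j * θ))
  exact mul_le_of_le_one_right (k4_wt_nonneg b j) h

theorem k4_TT_near {b : ℝ} (hs : Summable (wt b))
    (hs2 : Summable (fun j : ℕ => wt b j * (j : ℝ) ^ 2)) (θ : ℝ) :
    WW b - 2 * π ^ 2 * (nd θ) ^ 2 * VV b ≤ TT b θ := by
  obtain ⟨n, hn⟩ := k4_nd_exists θ
  have hn2 : (θ - n) ^ 2 = (nd θ) ^ 2 := by rw [← hn, sq_abs]
  unfold WW VV TT
  rw [← tsum_mul_left, ← Summable.tsum_sub hs (hs2.mul_left _)]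
  refine Summable.tsum_le_tsum (fun j => ?_) (hs.sub (hs2.mul_left _)) (k4_cos_summable hs θ)
  have h1 : Real.cos (2 * π * (j * θ)) = Real.cos (2 * π * (j * (θ - n))) := by
    have h2 : 2 * π * (j * (θ - n)) = 2 * π * (j * θ) - ((j * n : ℤ) : ℝ) * (2 * π) := by
      push_cast; ring
    rw [h2, Real.cos_sub_int_mul_two_pi]
  have h2 := Real.one_sub_sq_div_two_le_cos (x := 2 * π * (j * (θ - n)))
  rw [← h1] at h2
  have h3 : 1 - (2 * π * (j * (θ - n))) ^ 2 / 2 = 1 - 2 * π ^ 2 * (nd θ) ^ 2 * (j : ℝ) ^ 2 := by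
    rw [← hn2]; ring
  rw [h3] at h2
  have h4 := mul_le_mul_of_nonneg_left h2 (k4_wt_nonneg b j)
  linarith

/-- tails -/
theorem k4_tail_fin (x : ℝ) (hx : 0 < x) : ∀ N : ℕ,
    ((N : ℝ) ≤ x → ∑ m ∈ Finset.range N, (if x < (m : ℝ) + 1 then 1 / ((m : ℝ) + 1) ^ 2 else 0) = 0) ∧
    (x < N → ∑ m ∈ Finset.range N, (if x < (m : ℝ) + 1 then 1 / ((m : ℝ) + 1) ^ 2 else 0) ≤
      2 / x - 1 / N) := by
  intro N
  induction N with
  | zero =>
    refine ⟨fun _ => by simp, fun h => ?_⟩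
    push_cast at h
    linarith
  | succ N ih =>
    constructor
    · intro h
      push_cast at h
      rw [Finset.sum_range_succ, ih.1 (by linarith), if_neg (by linarith)]
      ring
    · intro h
      push_cast at h
      rw [Finset.sum_range_succ, if_pos h]
      have hN1 : (0 : ℝ) < (N : ℝ) + 1 := by positivity
      push_cast
      rcases le_or_gt (N : ℝ) x with h1 | h1
      · rw [ih.1 h1, zero_add]
        have h2 : 1 / ((N : ℝ) + 1) ^ 2 ≤ 1 / ((N : ℝ) + 1) := by
          refine one_div_le_one_div_of_le hN1 ?_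
          nlinarith [(Nat.cast_nonneg N : (0 : ℝ) ≤ N)]
        have h3 : 1 / ((N : ℝ) + 1) ≤ 1 / x := one_div_le_one_div_of_le hx h.le
        have h4 : 2 / x = 1 / x + 1 / x := by ring
        linarith
      · have h2 := ih.2 h1
        have hN0 : (0 : ℝ) < N := lt_trans hx h1
        have h3 : 1 / ((N : ℝ) + 1) ^ 2 ≤ 1 / N - 1 / ((N : ℝ) + 1) := by
          rw [div_sub_div _ _ hN0.ne' hN1.ne', div_le_div_iff₀ (by positivity) (by positivity)]
          nlinarith
        linarith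

theorem k4_tail_range (x : ℝ) (hx : 0 < x) (N : ℕ) :
    ∑ m ∈ Finset.range N, (if x < (m : ℝ) + 1 then 1 / ((m : ℝ) + 1) ^ 2 else 0) ≤ 2 / x := by
  have h := k4_tail_fin x hx N
  rcases le_or_gt (N : ℝ) x with h1 | h1
  · rw [h.1 h1]; positivity
  · have h2 := h.2 h1
    have h3 : 0 ≤ 1 / (N : ℝ) := by positivity
    linarith

theorem k4_tail (x : ℝ) (hx : 0 < x) :
    ∑' m : ℕ, (if x < (m : ℝ) + 1 then 1 / ((m : ℝ) + 1) ^ 2 else 0) ≤ 2 / x :=
  Real.tsum_le_of_sum_range_le (fun m => by split_ifs <;> positivity) (k4_tail_range x hx)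

theorem k4_ind_summable (P : ℕ → Prop) [DecidablePred P] :
    Summable (fun m : ℕ => if P m then 1 / ((m : ℝ) + 1) ^ 2 else 0) := by
  refine Summable.of_nonneg_of_le (fun m => ?_) (fun m => ?_) k4_one_summable
  · split_ifs <;> positivity
  · split_ifs
    · exact le_rfl
    · positivity

/-- multiples of `q` -/
theorem k4_mult (q : ℕ) (hq : 1 ≤ q) (y η : ℝ) (hy : 0 < y) (hη : 0 < η) :
    ∑' m : ℕ, (if (q ∣ m + 1 ∧ y < (((m + 1) / q : ℕ) : ℝ) * η) then 1 / ((m : ℝ) + 1) ^ 2 else 0) ≤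
      (1 / (q : ℝ) ^ 2) * (2 * η / y) := by
  classical
  have hq0 : (0 : ℝ) < q := by exact_mod_cast hq
  refine Real.tsum_le_of_sum_range_le (fun m => by split_ifs <;> positivity) (fun N => ?_)
  rw [← Finset.sum_filter]
  set T := (Finset.range N).filter (fun m => q ∣ m + 1 ∧ y < (((m + 1) / q : ℕ) : ℝ) * η) with hT
  have hsub : T ⊆ ((Finset.range N).filter (fun r : ℕ => y / η < (r : ℝ) + 1)).image
      (fun r : ℕ => q * (r + 1) - 1) := by
    intro m hm
    obtain ⟨hmN, ⟨k, hk⟩, hmy⟩ := Finset.mem_filter.1 hm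
    have hdiv : (m + 1) / q = k := by rw [hk]; exact Nat.mul_div_cancel_left k (by omega)
    rw [hdiv] at hmy
    have hk0 : 1 ≤ k := by
      rcases Nat.eq_zero_or_pos k with h | h
      · rw [h] at hk; omega
      · exact h
    rw [Finset.mem_image]
    refine ⟨k - 1, Finset.mem_filter.2 ⟨?_, ?_⟩, ?_⟩
    · rw [Finset.mem_range] at hmN ⊢
      have : k ≤ q * k := Nat.le_mul_of_pos_left k (by omega)
      omega
    · have h1 : (((k - 1 : ℕ) : ℝ)) + 1 = k := by
        have h2 : k - 1 + 1 = k := by omega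
        exact_mod_cast h2
      rw [h1, div_lt_iff₀ hη]
      exact hmy
    · show q * (k - 1 + 1) - 1 = m
      have h2 : k - 1 + 1 = k := by omega
      rw [h2]
      omega
  have hinj : Set.InjOn (fun r : ℕ => q * (r + 1) - 1)
      ((Finset.range N).filter (fun r : ℕ => y / η < (r : ℝ) + 1) : Finset ℕ) := by
    intro r _ s _ h
    have h1 : q * (r + 1) - 1 = q * (s + 1) - 1 := h
    have h2 : 1 ≤ q * (r + 1) := Nat.mul_pos (by omega) (by omega)
    have h3 : 1 ≤ q * (s + 1) := Nat.mul_pos (by omega) (by omega)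
    have h4 : q * (r + 1) = q * (s + 1) := by omega
    have h5 := Nat.eq_of_mul_eq_mul_left (by omega) h4
    omega
  calc ∑ m ∈ T, 1 / ((m : ℝ) + 1) ^ 2
      ≤ ∑ m ∈ ((Finset.range N).filter (fun r : ℕ => y / η < (r : ℝ) + 1)).image
          (fun r : ℕ => q * (r + 1) - 1), 1 / ((m : ℝ) + 1) ^ 2 :=
        Finset.sum_le_sum_of_subset_of_nonneg hsub (fun m _ _ => by positivity)
    _ = ∑ r ∈ (Finset.range N).filter (fun r : ℕ => y / η < (r : ℝ) + 1),
          (1 / (q : ℝ) ^ 2) * (1 / ((r : ℝ) + 1) ^ 2) := by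
        rw [Finset.sum_image hinj]
        refine Finset.sum_congr rfl (fun r _ => ?_)
        have h2 : 1 ≤ q * (r + 1) := Nat.mul_pos (by omega) (by omega)
        have h3 : ((q * (r + 1) - 1 : ℕ) : ℝ) + 1 = q * ((r : ℝ) + 1) := by
          have h4 : q * (r + 1) - 1 + 1 = q * (r + 1) := by omega
          exact_mod_cast h4
        rw [h3, mul_pow]
        field_simp
    _ = (1 / (q : ℝ) ^ 2) * ∑ r ∈ Finset.range N,
          (if y / η < (r : ℝ) + 1 then 1 / ((r : ℝ) + 1) ^ 2 else 0) := by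
        rw [← Finset.mul_sum, Finset.sum_filter]
    _ ≤ (1 / (q : ℝ) ^ 2) * (2 / (y / η)) :=
        mul_le_mul_of_nonneg_left (k4_tail_range _ (by positivity) N) (by positivity)
    _ = (1 / (q : ℝ) ^ 2) * (2 * η / y) := by
        congr 1
        field_simp

/-- all head terms vanish -/
theorem k4_case_zero {b b' α : ℝ} (hb : 0 < b) (hs : Summable (wt b'))
    (h : ∀ m : ℕ, 12 * b * ((m : ℝ) + 1) ≤ 1 → TT b' (((m : ℝ) + 1) * α) = 0) :
    -(24 * b * WW b') ≤ ∑' m : ℕ, TT b' (((m : ℝ) + 1) * α) / ((m : ℝ) + 1) ^ 2 := by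
  have hW := k4_WW_nonneg b'
  have h1 : ∑' m : ℕ, -(WW b' * (if 1 / (12 * b) < (m : ℝ) + 1 then 1 / ((m : ℝ) + 1) ^ 2 else 0)) ≤
      ∑' m : ℕ, TT b' (((m : ℝ) + 1) * α) / ((m : ℝ) + 1) ^ 2 := by
    refine Summable.tsum_le_tsum (fun m => ?_) ?_ ?_
    · split_ifs with hm
      · rw [mul_one_div, ← neg_div]
        exact div_le_div_of_nonneg_right (k4_TT_ge hs _) (by positivity)
      · have h2 : 12 * b * ((m : ℝ) + 1) ≤ 1 := by
          rw [not_lt, le_div_iff₀ (by positivity)] at hm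
          linarith
        rw [h m h2]
        simp
    · exact ((k4_ind_summable (fun m : ℕ => 1 / (12 * b) < (m : ℝ) + 1)).mul_left _).neg
    · refine Summable.of_norm_bounded (k4_one_summable.mul_left (WW b')) (fun m => ?_)
      rw [norm_div, Real.norm_of_nonneg (by positivity : (0 : ℝ) ≤ ((m : ℝ) + 1) ^ 2), mul_one_div]
      refine div_le_div_of_nonneg_right ?_ (by positivity)
      rw [Real.norm_eq_abs, abs_le]
      exact ⟨k4_TT_ge hs _, k4_TT_le hs _⟩
  refine le_trans ?_ h1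
  rw [tsum_neg, tsum_mul_left]
  have h2 := k4_tail (1 / (12 * b)) (by positivity)
  have h3 : 2 / (1 / (12 * b)) = 24 * b := by field_simp; norm_num
  rw [h3] at h2
  have h4 := mul_le_mul_of_nonneg_left h2 hW
  linarith

theorem k4_F_summable {b' α : ℝ} (hs : Summable (wt b')) :
    Summable (fun m : ℕ => TT b' (((m : ℝ) + 1) * α) / ((m : ℝ) + 1) ^ 2) := by
  refine Summable.of_norm_bounded (k4_one_summable.mul_left (WW b')) (fun m => ?_)
  rw [norm_div, Real.norm_of_nonneg (by positivity : (0 : ℝ) ≤ ((m : ℝ) + 1) ^ 2), mul_one_div]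
  refine div_le_div_of_nonneg_right ?_ (by positivity)
  rw [Real.norm_eq_abs, abs_le]
  exact ⟨k4_TT_ge hs _, k4_TT_le hs _⟩

/-- the case of a very good approximation -/
theorem k4_case_good {b α β₀ η : ℝ} {q : ℕ} (hb : 0 < b) (hs : Summable (wt b)) (hq : 1 ≤ q)
    (hqx : 12 * b * q ≤ 1) (hβ : 0 < β₀) (hη0 : 0 ≤ η) (hη : η ≤ β₀ * b / 4)
    (h0 : ∀ m : ℕ, 12 * b * ((m : ℝ) + 1) ≤ 1 → ¬ q ∣ m + 1 → TT b (((m : ℝ) + 1) * α) = 0)
    (h1 : ∀ m r : ℕ, 12 * b * ((m : ℝ) + 1) ≤ 1 → m + 1 = q * r → (r : ℝ) * η ≤ β₀ * b →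
      WW b / 2 ≤ TT b (((m : ℝ) + 1) * α)) :
    -(24 * b * WW b) ≤ ∑' m : ℕ, TT b (((m : ℝ) + 1) * α) / ((m : ℝ) + 1) ^ 2 := by
  classical
  have hW := k4_WW_nonneg b
  have hq0 : (0 : ℝ) < q := by exact_mod_cast hq
  set T : ℕ → ℝ := fun m => if 1 / (12 * b) < (m : ℝ) + 1 then 1 / ((m : ℝ) + 1) ^ 2 else 0
    with hT
  set E : ℕ → ℝ := fun m => if m = q - 1 then 1 / ((m : ℝ) + 1) ^ 2 else 0 with hE
  set U : ℕ → ℝ := fun m => if (q ∣ m + 1 ∧ β₀ * b < (((m + 1) / q : ℕ) : ℝ) * η) then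
    1 / ((m : ℝ) + 1) ^ 2 else 0 with hU
  have hTs : Summable T := k4_ind_summable (fun m : ℕ => 1 / (12 * b) < (m : ℝ) + 1)
  have hEs : Summable E := k4_ind_summable (fun m : ℕ => m = q - 1)
  have hUs : Summable U :=
    k4_ind_summable (fun m : ℕ => q ∣ m + 1 ∧ β₀ * b < (((m + 1) / q : ℕ) : ℝ) * η)
  have hTnn : ∀ m, 0 ≤ T m := fun m => by simp only [hT]; split_ifs <;> positivity
  have hUnn : ∀ m, 0 ≤ U m := fun m => by simp only [hU]; split_ifs <;> positivity
  have hE1 : ∑' m, E m = 1 / (q : ℝ) ^ 2 := by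
    rw [tsum_eq_single (q - 1)]
    · simp only [hE, if_true]
      have h2 : ((q - 1 : ℕ) : ℝ) + 1 = q := by
        have h3 : q - 1 + 1 = q := by omega
        exact_mod_cast h3
      rw [h2]
    · intro m hm
      simp only [hE]
      rw [if_neg hm]
  have hT1 : ∑' m, T m ≤ 24 * b := by
    have h2 := k4_tail (1 / (12 * b)) (by positivity)
    have h3 : 2 / (1 / (12 * b)) = 24 * b := by field_simp; norm_num
    rw [h3] at h2
    exact h2
  have hU1 : ∑' m, U m ≤ (1 / (q : ℝ) ^ 2) * (1 / 2) := by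
    rcases hη0.eq_or_lt with h | h
    · have hz : ∀ m, U m = 0 := by
        intro m
        simp only [hU]
        rw [if_neg]
        rintro ⟨-, h3⟩
        rw [← h, mul_zero] at h3
        nlinarith [mul_pos hβ hb]
      simp only [hz, tsum_zero]
      positivity
    · refine (k4_mult q hq (β₀ * b) η (by positivity) h).trans ?_
      refine mul_le_mul_of_nonneg_left ?_ (by positivity)
      rw [div_le_div_iff₀ (by positivity) (by norm_num)]
      nlinarith
  have hmain : ∑' m : ℕ, (-(WW b * T m) + WW b / 2 * E m - WW b * U m) ≤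
      ∑' m : ℕ, TT b (((m : ℝ) + 1) * α) / ((m : ℝ) + 1) ^ 2 := by
    refine Summable.tsum_le_tsum (fun m => ?_)
      (((hTs.mul_left _).neg.add (hEs.mul_left _)).sub (hUs.mul_left _)) (k4_F_summable hs)
    have hm1 : (0 : ℝ) < ((m : ℝ) + 1) ^ 2 := by positivity
    have hge : -(WW b * (1 / ((m : ℝ) + 1) ^ 2)) ≤ TT b (((m : ℝ) + 1) * α) / ((m : ℝ) + 1) ^ 2 := by
      rw [mul_one_div, ← neg_div]
      exact div_le_div_of_nonneg_right (k4_TT_ge hs _) (by positivity)
    by_cases hx : 12 * b * ((m : ℝ) + 1) ≤ 1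
    · have hTm : T m = 0 := by
        simp only [hT]
        rw [if_neg]
        rw [not_lt, le_div_iff₀ (by positivity)]
        linarith
      by_cases hqm : q ∣ m + 1
      · obtain ⟨r, hr⟩ := hqm
        have hdiv : (m + 1) / q = r := by rw [hr]; exact Nat.mul_div_cancel_left r (by omega)
        by_cases hrη : (r : ℝ) * η ≤ β₀ * b
        · have h2 := h1 m r hx hr hrη
          have hUm : U m = 0 := by
            simp only [hU]
            rw [if_neg]
            rintro ⟨-, h3⟩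
            rw [hdiv] at h3
            linarith
          have h3 : WW b / 2 * E m ≤ WW b / 2 * (1 / ((m : ℝ) + 1) ^ 2) := by
            refine mul_le_mul_of_nonneg_left ?_ (by linarith)
            simp only [hE]
            split_ifs
            · exact le_rfl
            · positivity
          have h4 : WW b / 2 * (1 / ((m : ℝ) + 1) ^ 2) ≤
              TT b (((m : ℝ) + 1) * α) / ((m : ℝ) + 1) ^ 2 := by
            rw [mul_one_div]
            exact div_le_div_of_nonneg_right h2 hm1.le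
          rw [hTm, hUm]
          linarith
        · have hUm : U m = 1 / ((m : ℝ) + 1) ^ 2 := by
            simp only [hU]
            rw [if_pos]
            refine ⟨⟨r, hr⟩, ?_⟩
            rw [hdiv]
            exact not_le.1 hrη
          have hEm : E m = 0 := by
            simp only [hE]
            rw [if_neg]
            intro h3
            apply hrη
            have h4 : m + 1 = q := by omega
            rw [h4] at hr
            have h5 : r = 1 := by
              have : q * r = q * 1 := by omega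
              exact Nat.eq_of_mul_eq_mul_left (by omega) this
            rw [h5]
            push_cast
            nlinarith [mul_pos hβ hb]
          rw [hTm, hEm, hUm]
          linarith
      · have hEm : E m = 0 := by
          simp only [hE]
          rw [if_neg]
          intro h3
          apply hqm
          have h4 : m + 1 = q := by omega
          rw [h4]
        have hUm : U m = 0 := by
          simp only [hU]
          rw [if_neg]
          rintro ⟨h3, -⟩
          exact hqm h3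
        rw [hTm, hEm, hUm, h0 m hx hqm]
        simp
    · have hTm : T m = 1 / ((m : ℝ) + 1) ^ 2 := by
        simp only [hT]
        rw [if_pos]
        rw [div_lt_iff₀ (by positivity)]
        linarith [not_le.1 hx]
      have hEm : E m = 0 := by
        simp only [hE]
        rw [if_neg]
        intro h3
        apply hx
        have h4 : m + 1 = q := by omega
        have h5 : (m : ℝ) + 1 = q := by exact_mod_cast h4
        rw [h5]
        exact hqx
      have h6 := mul_nonneg hW (hUnn m)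
      rw [hTm, hEm]
      linarith
  refine le_trans ?_ hmain
  rw [Summable.tsum_sub ((hTs.mul_left _).neg.add (hEs.mul_left _)) (hUs.mul_left _),
    Summable.tsum_add (hTs.mul_left _).neg (hEs.mul_left _), tsum_neg, tsum_mul_left,
    tsum_mul_left, tsum_mul_left, hE1]
  have h2 := mul_le_mul_of_nonneg_left hT1 hW
  have h3 := mul_le_mul_of_nonneg_left hU1 hW
  have h4 : WW b * (1 / (q : ℝ) ^ 2 * (1 / 2)) = WW b / 2 * (1 / (q : ℝ) ^ 2) := by ring
  linarith

/-- arithmetic of the minimal denominator -/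
theorem k4_dvd {b α : ℝ} {q : ℕ} {l : ℤ} (hb : 0 < b) (hq : 1 ≤ q) (hqx : 12 * b * q ≤ 1)
    (hl : |(q : ℝ) * α - l| < 3 * b)
    (hmin : ∀ k : ℕ, 1 ≤ k → k < q → ∀ n : ℤ, 3 * b ≤ |(k : ℝ) * α - n|)
    (k : ℕ) (hk : 1 ≤ k) (hkx : 12 * b * k ≤ 1) (n : ℤ) (hn : |(k : ℝ) * α - n| < 3 * b) :
    q ∣ k := by
  have hq0 : (0 : ℝ) < q := by exact_mod_cast hq
  have hk0 : (0 : ℝ) < k := by exact_mod_cast hk
  -- k l = q n
  have h1 : |((k * l - q * n : ℤ) : ℝ)| < 1 := by
    have h2 : ((k * l - q * n : ℤ) : ℝ) = -(k * ((q : ℝ) * α - l)) + q * ((k : ℝ) * α - n) := by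
      push_cast; ring
    rw [h2]
    refine (abs_add_le _ _).trans_lt ?_
    rw [abs_neg, abs_mul, abs_mul, abs_of_pos hk0, abs_of_pos hq0]
    have h3 := mul_lt_mul_of_pos_left hl hk0
    have h4 := mul_lt_mul_of_pos_left hn hq0
    nlinarith
  have h2 : (k * l - q * n : ℤ) = 0 := by
    have h3 : |(k * l - q * n : ℤ)| < 1 := by
      have h4 : ((|(k * l - q * n : ℤ)| : ℤ) : ℝ) < ((1 : ℤ) : ℝ) := by
        rw [Int.cast_abs]
        push_cast at h1 ⊢
        exact h1
      exact_mod_cast h4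
    exact Int.abs_lt_one_iff.1 h3
  by_contra hdvd
  set r := k % q with hr
  set a := k / q with ha
  have hka : q * a + r = k := Nat.div_add_mod k q
  have hr0 : 1 ≤ r := by
    rcases Nat.eq_zero_or_pos r with h | h
    · exact absurd (Nat.dvd_of_mod_eq_zero h) hdvd
    · exact h
  have hrq : r < q := Nat.mod_lt k (by omega)
  have h3 := hmin r hr0 hrq (n - a * l)
  have hkaR : (q : ℝ) * a + r = k := by exact_mod_cast hka
  have h2R : (k : ℝ) * l = q * n := by
    have h5 : (k * l : ℤ) = q * n := by linarith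
    exact_mod_cast h5
  have h4 : (r : ℝ) * α - ((n - a * l : ℤ) : ℝ) = (r : ℝ) * ((q : ℝ) * α - l) / q := by
    rw [eq_div_iff hq0.ne']
    push_cast
    linear_combination (l : ℝ) * hkaR + h2R
  rw [h4, abs_div, abs_mul, abs_of_pos hq0, abs_of_nonneg (by positivity : (0 : ℝ) ≤ (r : ℝ)),
    le_div_iff₀ hq0] at h3
  have hrqR : (r : ℝ) ≤ q := by exact_mod_cast hrq.le
  have h5 : (r : ℝ) * |(q : ℝ) * α - l| ≤ q * |(q : ℝ) * α - l| :=
    mul_le_mul_of_nonneg_right hrqR (abs_nonneg _)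
  have h6 : (q : ℝ) * |(q : ℝ) * α - l| < q * (3 * b) := mul_lt_mul_of_pos_left hl hq0
  linarith

theorem st_K4 (h1 : ST_K1) (h2 : ST_K2) : ST_K4 := by
  classical
  obtain ⟨c₁, c₂, hc₁, hc₂, h2⟩ := h2
  set β₀ : ℝ := √(c₁ / (4 * π ^ 2 * c₂)) with hβ₀
  have hβpos : 0 < β₀ := Real.sqrt_pos.2 (by positivity)
  have hβsq : β₀ ^ 2 = c₁ / (4 * π ^ 2 * c₂) := Real.sq_sqrt (by positivity)
  set κ₁ : ℝ := min (β₀ / 4) 1 with hκ₁
  have hκpos : 0 < κ₁ := lt_min (by positivity) one_pos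
  have hκ1 : κ₁ ≤ 1 := min_le_right _ _
  have hκβ : κ₁ ≤ β₀ / 4 := min_le_left _ _
  refine ⟨κ₁ / 3, 3, by positivity, by linarith, by norm_num, ?_⟩
  intro b hb hb6 α
  have hfin : ∀ b' : ℝ, Summable (wt b') →
      -(24 * b * WW b') ≤ ∑' m : ℕ, TT b' (((m : ℝ) + 1) * α) / ((m : ℝ) + 1) ^ 2 →
      -(3 * b * WW b') ≤ ∑' j : ℕ, wt b' j * B2 (j * α) := by
    intro b' hs' h
    rw [k4_sum hs']
    have hW := k4_WW_nonneg b'
    have hπ : 9 ≤ π ^ 2 := by nlinarith [Real.pi_gt_three]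
    have h3 : -(3 * b * WW b') ≤ (1 / π ^ 2) * (-(24 * b * WW b')) := by
      rw [one_div, inv_mul_eq_div, le_div_iff₀ (by positivity)]
      nlinarith [mul_nonneg hb.le hW]
    refine h3.trans ?_
    exact mul_le_mul_of_nonneg_left h (by positivity)
  obtain ⟨hs, hs2, hW1, hV1⟩ := h2 b hb hb6
  by_cases hex : ∃ k : ℕ, 1 ≤ k ∧ 12 * b * k ≤ 1 ∧ ∃ n : ℤ, |(k : ℝ) * α - n| < 3 * b
  · -- minimal such k
    set q := Nat.find hex with hq
    obtain ⟨hq1, hqx, l, hl⟩ := Nat.find_spec hex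
    have hmin : ∀ k : ℕ, 1 ≤ k → k < q → ∀ n : ℤ, 3 * b ≤ |(k : ℝ) * α - n| := by
      intro k hk hkq n
      by_contra hcon
      refine Nat.find_min hex hkq ⟨hk, ?_, n, not_le.1 hcon⟩
      have h3 : (k : ℝ) ≤ q := by exact_mod_cast hkq.le
      have h4 : 12 * b * k ≤ 12 * b * q := mul_le_mul_of_nonneg_left h3 (by positivity)
      exact h4.trans hqx
    have hq1' : 1 ≤ q := hq1
    have hqx' : 12 * b * q ≤ 1 := hqx
    have hl' : |(q : ℝ) * α - l| < 3 * b := hl
    set η := |(q : ℝ) * α - l| with hη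
    have hη0 : 0 ≤ η := abs_nonneg _
    have hnear : ∀ m : ℕ, 12 * b * ((m : ℝ) + 1) ≤ 1 → ¬ q ∣ m + 1 →
        3 * b ≤ nd (((m : ℝ) + 1) * α) := by
      intro m hm hdvd
      by_contra hcon
      obtain ⟨n, hn⟩ := k4_nd_exists (((m : ℝ) + 1) * α)
      have hn' : |((m + 1 : ℕ) : ℝ) * α - n| < 3 * b := by
        push_cast
        rw [hn]
        exact not_le.1 hcon
      exact hdvd (k4_dvd hb hq1' hqx' hl' hmin (m + 1) (by omega) (by push_cast; exact hm) n hn')
    have hmult : ∀ m r : ℕ, 12 * b * ((m : ℝ) + 1) ≤ 1 → m + 1 = q * r →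
        nd (((m : ℝ) + 1) * α) = r * η := by
      intro m r hm hr
      have hrR : (m : ℝ) + 1 = q * r := by exact_mod_cast hr
      have hr1 : 1 ≤ r := by
        rcases Nat.eq_zero_or_pos r with h | h
        · rw [h] at hr; omega
        · exact h
      have hr0 : (0 : ℝ) < r := by exact_mod_cast hr1
      have h3 : |((m : ℝ) + 1) * α - ((r * l : ℤ) : ℝ)| = r * η := by
        rw [hrR, hη, ← abs_of_pos hr0, ← abs_mul, abs_of_pos hr0]
        congr 1
        push_cast
        ring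
      have h4 : (r : ℝ) * η ≤ 1 / 4 := by
        have h5 : (r : ℝ) * η ≤ r * (3 * b) := mul_le_mul_of_nonneg_left hl'.le hr0.le
        have hq0 : (1 : ℝ) ≤ q := by exact_mod_cast hq1'
        have h6 : (r : ℝ) ≤ (m : ℝ) + 1 := by rw [hrR]; nlinarith
        have h7 : (r : ℝ) * (3 * b) ≤ ((m : ℝ) + 1) * (3 * b) :=
          mul_le_mul_of_nonneg_right h6 (by positivity)
        linarith
      refine le_antisymm (by rw [← h3]; exact k4_nd_le _ _) ?_
      obtain ⟨n, hn⟩ := k4_nd_exists (((m : ℝ) + 1) * α)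
      by_cases hnr : n = r * l
      · rw [hnr, h3] at hn
        exact hn.le
      · rw [← hn]
        have h5 : (1 : ℝ) ≤ |((n - r * l : ℤ) : ℝ)| := by
          have h6 : (1 : ℤ) ≤ |n - r * l| := Int.one_le_abs (sub_ne_zero.2 hnr)
          exact_mod_cast h6
        have h6 : ((n - r * l : ℤ) : ℝ) = (((m : ℝ) + 1) * α - ((r * l : ℤ) : ℝ)) -
            (((m : ℝ) + 1) * α - n) := by push_cast; ring
        rw [h6] at h5
        have h7 := abs_sub (((m : ℝ) + 1) * α - ((r * l : ℤ) : ℝ)) (((m : ℝ) + 1) * α - n)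
        rw [h3] at h7
        linarith
    by_cases hgood : η ≤ κ₁ * b
    · refine ⟨b, Or.inl rfl, hfin b hs ?_⟩
      refine k4_case_good (β₀ := β₀) (η := η) (q := q) hb hs hq1' hqx' hβpos hη0 ?_ ?_ ?_
      · calc η ≤ κ₁ * b := hgood
          _ ≤ β₀ / 4 * b := mul_le_mul_of_nonneg_right hκβ hb.le
          _ = β₀ * b / 4 := by ring
      · intro m hm hdvd
        exact h1 b _ hb hb6 (hnear m hm hdvd)
      · intro m r hm hr hrη
        have h3 := k4_TT_near hs hs2 (((m : ℝ) + 1) * α)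
        rw [hmult m r hm hr] at h3
        have hV0 : 0 ≤ VV b := tsum_nonneg (fun j => mul_nonneg (k4_wt_nonneg b j) (by positivity))
        have h4 : ((r : ℝ) * η) ^ 2 ≤ (β₀ * b) ^ 2 :=
          pow_le_pow_left₀ (by positivity) hrη 2
        have h5 : 2 * π ^ 2 * ((r : ℝ) * η) ^ 2 * VV b ≤ 2 * π ^ 2 * (β₀ * b) ^ 2 * (c₂ * b) := by
          refine mul_le_mul ?_ hV1 hV0 (by positivity)
          exact mul_le_mul_of_nonneg_left h4 (by positivity)
        have h6 : 2 * π ^ 2 * (β₀ * b) ^ 2 * (c₂ * b) = c₁ * b ^ 3 / 2 := by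
          rw [mul_pow, hβsq]
          field_simp
          ring
        linarith
    · have hb' : 0 < κ₁ / 3 * b := by positivity
      have hb6' : κ₁ / 3 * b ≤ 1 / 6 := by nlinarith
      obtain ⟨hs', -, -, -⟩ := h2 (κ₁ / 3 * b) hb' hb6'
      refine ⟨κ₁ / 3 * b, Or.inr rfl, hfin _ hs' ?_⟩
      refine k4_case_zero hb hs' (fun m hm => ?_)
      refine h1 _ _ hb' hb6' ?_
      by_cases hdvd : q ∣ m + 1
      · obtain ⟨r, hr⟩ := hdvd
        rw [hmult m r hm hr]
        have hr1 : 1 ≤ r := by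
          rcases Nat.eq_zero_or_pos r with h | h
          · rw [h] at hr; omega
          · exact h
        have hr0 : (1 : ℝ) ≤ r := by exact_mod_cast hr1
        have h3 : κ₁ * b < η := not_le.1 hgood
        nlinarith
      · have h3 := hnear m hm hdvd
        nlinarith
  · -- no good approximation
    refine ⟨b, Or.inl rfl, hfin b hs (k4_case_zero hb hs (fun m hm => ?_))⟩
    refine h1 b _ hb hb6 ?_
    by_contra hcon
    obtain ⟨n, hn⟩ := k4_nd_exists (((m : ℝ) + 1) * α)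
    refine hex ⟨m + 1, by omega, by push_cast; exact hm, n, ?_⟩
    push_cast
    rw [hn]
    exact not_le.1 hcon

end Pool.Agent.Helper54.LS
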